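import Pool.Agent.Helper86_DA.K6b
import Pool.Agent.Helper95_CLB.OnlPair

/-!
One caterpillar with a fork in the chain, four units.
-/

set_option autoImplicit false
set_option linter.unusedSectionVars false

namespace CLB.H86

open Finset Classical
open H3DA (Q neg nr)
open CLB.H95
open CLB.H3 (CExt Cat IsTwo cat_structure he_of_unc pos KTight exists_ktight fits_other)

variable {V : Type} [Fintype V] {H : SimpleGraph V} {R : V → Bool} {k : ℕ} {X Y : ℤ → V}
  {m : ℕ} {z c : ℕ → V}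

namespace K4

/-- The contradiction, for labels which are not tight on the caterpillar. -/
theorem core_fin' (tn : TwoNH) (hG : ClassC H R) (hc : Crit H R) (ks : KS H R k X Y m z c) {w : V}
    {u : ℕ} (hwZ : ¬ InZ X Y w) {f : V → Q} (hf : OffC H R k (xN X) (xN Y) f)
    {v₀ z₀ : V} {Φ : V → V → Finset Q}
    (hΦ : Forb H R k (xN X) (xN Y) f (ES H R X Y m z) v₀ z₀ Φ) {mu : ℕ → Q}
    (hmem : ∀ i, 1 ≤ i → i ≤ k → mu i ∈ lst H R (xN X) (xN Y) Φ i ∧
      mu i ∉ kap H R k X Y m c f w u (xN X i) mu ∧ mu i ∉ kap H R k X Y m c f w u (xN Y i) mu)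
    (hw : ∀ i, 1 ≤ i → i < k → nr (mu i) (mu (i + 1)) = true) (hcyc : nr (mu k) (mu 1) = true)
    (h1 : mu (k - 1) ≠ mu 1) (hno : ¬ L2 H R X Y 0) (hcr : L2 H R X Y (-2) → mu k ≠ mu (k - 2))
    (hnt : ∀ D, ¬ Tight D (fun j => lbl k (xN X) (xN Y) mu f (c j)) m) :
    False := by
  have cc := ks.cc
  have hk4 := ks.k4
  have hm3 := ks.m3
  have heven := cc.even
  have h : Chn H R k (xN X) (xN Y) := cc.chn
  have hl : Lk H R (xN Y k) (xN X 1) := cc.lkc
  have hin : ∀ v, InC k (xN X) (xN Y) v ↔ InZ X Y v := fun v => cc.inC_iff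
  set L : V → Q := lbl k (xN X) (xN Y) mu f with hL
  have LX : ∀ i : ℕ, 1 ≤ i → i ≤ k → L (X i) = sg i (mu i) := fun i i1 i2 => lbl_x h i1 i2
  have LY : ∀ i : ℕ, 1 ≤ i → i ≤ k → L (Y i) = neg (sg i (mu i)) := fun i i1 i2 => lbl_y h i1 i2
  have Lo : ∀ v, ¬ InZ X Y v → L v = f v := fun v hv => lbl_out (fun h' => hv ((hin v).1 h'))
  -- two neighbours of an uncovered vertex
  have hconf1 : ∀ v, ¬ Cov H R v → ∀ j, H.Adj v (Y j) → H.Adj v (X (j + 2)) →
      L (Y j) ≠ neg (L (X (j + 2))) := by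
    intro v hv j hj1 hj2
    obtain ⟨n, n1, n2, n3⟩ := cc.repr j
    have e1 : Y j = Y n := (cc.eqX n3).2
    have e2 : X (j + 2) = X (n + 2) := by
      refine (cc.eqX ?_).1
      rwa [show j + 2 - ((n : ℤ) + 2) = j - n by ring]
    rw [e1, e2]
    rw [e1] at hj1
    rw [e2] at hj2
    have hcase : n + 3 ≤ k ∨ n + 2 = k ∨ n + 1 = k ∨ n = k := by omega
    rcases hcase with hn | hn | hn | hn
    · -- an inner conflict
      have e3 : X ((n : ℤ) + 2) = X ((n + 2 : ℕ) : ℤ) := by push_cast; rfl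
      have hLC : LC H R k X Y (X ((n + 2 : ℕ) : ℤ)) (n + 2) := by
        refine ⟨by omega, by omega, rfl, v, hv, ?_, ?_⟩
        · rw [show ((n + 2 : ℕ) : ℤ) - 2 = n by push_cast; ring]; exact hj1
        · rw [← e3]; exact hj2
      have g1 := (hmem (n + 2) (by omega) (by omega)).2.1
      have g2 : X ((n + 2 : ℕ) : ℤ) ≠ w := fun e => hwZ (e ▸ inZ_X X Y _)
      have g3 : mu (n + 2) ≠ mu n := by
        intro e
        apply g1
        show mu (n + 2) ∈ kap H R k X Y m c f w u (X ((n + 2 : ℕ) : ℤ)) mu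
        unfold kap
        rw [if_neg g2, if_pos ⟨n + 2, hLC⟩]
        simp only [mem_filter, mem_univ, true_and]
        exact ⟨n + 2, hLC, by rw [Nat.add_sub_cancel]; exact e⟩
      rw [e3, LY n n1 n2, LX (n + 2) (by omega) (by omega)]
      intro e
      have e4 := neg_inj' e
      rw [sg_succ, sg_succ, H3DA.neg_neg] at e4
      exact g3 (sg_inj e4).symm
    · -- the crossing
      have e3 : X ((n : ℤ) + 2) = X k := by rw [← hn]; push_cast; rfl
      have e4 : Y (n : ℤ) = Y (-2) := (cc.eqX (i := n) (j := -2) ⟨1, by omega⟩).2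
      have hT : L2 H R X Y (-2) := by
        refine ⟨v, two_of hG hc ks hv ?_ ?_ (Or.inr ?_)⟩
        · rw [← e4]; exact hj1
        · rw [show (-2 : ℤ) + 2 = 0 by ring, ← ks.Xk, ← e3]; exact hj2
        · rw [show (-2 : ℤ) + 2 = 0 by ring]; exact ks.nX0
      have g3 := hcr hT
      rw [e3, LY n n1 n2, LX k (by omega) le_rfl]
      intro e
      have e5 := neg_inj' e
      have e6 : n = k - 2 := by omega
      rw [← hn, sg_succ, sg_succ, H3DA.neg_neg, hn] at e5
      exact g3 (by rw [← e6]; exact (sg_inj e5).symm)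
    · -- the first fork
      have e3 : X ((n : ℤ) + 2) = X 1 := (cc.eqX (i := (n : ℤ) + 2) (j := 1) ⟨1, by omega⟩).1
      have e4 : X (1 : ℤ) = X ((1 : ℕ) : ℤ) := rfl
      have e6 : n = k - 1 := by omega
      rw [e3, e4, LY n n1 n2, LX 1 le_rfl (by omega), sg_odd (show n % 2 = 1 by omega),
        sg_odd (show 1 % 2 = 1 by rfl)]
      intro e
      rw [H3DA.neg_neg, H3DA.neg_neg] at e
      exact h1 (by rw [← e6]; exact e)
    · -- excluded
      exfalso
      apply hno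
      have e3 : X ((n : ℤ) + 2) = X (0 + 2) := (cc.eqX (i := (n : ℤ) + 2) (j := 0 + 2) ⟨1, by omega⟩).1
      have e4 : Y (n : ℤ) = Y 0 := (cc.eqX (i := n) (j := 0) ⟨1, by omega⟩).2
      refine ⟨v, two_of hG hc ks hv ?_ ?_ (Or.inl ks.nY0)⟩
      · rw [← e4]; exact hj1
      · rw [← e3]; exact hj2
  have hconf : ∀ v, ¬ Cov H R v → ∀ a b, a ≠ b → InZ X Y a → InZ X Y b → H.Adj v a → H.Adj v b →
      L a ≠ neg (L b) := by
    intro v hv a b hab ha hb hva hvb
    obtain ⟨i, ⟨rfl, rfl⟩ | ⟨rfl, rfl⟩⟩ := tn V H R k X Y hG cc v a b hv hab hva hvb ha hb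
    · exact hconf1 v hv i hva hvb
    · exact H3DA.ne_neg_symm (hconf1 v hv i hvb hva)
  -- the caterpillar
  have hcat := ks.cat
  have zu : ∀ i, 1 ≤ i → i ≤ m → ¬ Cov H R (z i) := hcat.unc
  -- a far leaf in the chain whose partner is outside
  have hfar : ∀ a b, FC X Y m c a b → InZ X Y a → L a ≠ neg (L b) := by
    intro a b hFC ha
    have hab : H.Adj (z m) a ∧ H.Adj (z m) b ∧ (a = c m ∨ a = c (m + 1)) := by
      rcases hFC.2 with ⟨e1, e2⟩ | ⟨e1, e2⟩
      · rw [e1, e2]; exact ⟨hcat.adjc m (by omega) le_rfl, hcat.adjm, Or.inl rfl⟩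
      · rw [e1, e2]; exact ⟨hcat.adjm, hcat.adjc m (by omega) le_rfl, Or.inr rfl⟩
    have hnw : a ≠ w := fun e => hwZ (e ▸ ha)
    have hnL : ¬ ∃ n, LC H R k X Y a n := by
      rintro ⟨n, n1, n2, n3, v, v1, v2, v3⟩
      rw [← n3] at v3
      have e := cc.unc_unique hG ha v3.symm hab.1.symm v1 (zu m (by omega) le_rfl)
      subst e
      obtain ⟨p, p1, p2, p3⟩ := port_exists hcat (by omega) le_rfl (cc.covY _) v2
      have hp : p = m ∨ p = m + 1 := by
        unfold cl at p3; split_ifs at p3 <;> omega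
      have hya : Y ((n : ℤ) - 2) ≠ a := by rw [n3]; exact (cc.xy _ _).symm
      have hyb : Y ((n : ℤ) - 2) ≠ b := fun e => hFC.1 (e ▸ inZ_Y X Y _)
      rcases hFC.2 with ⟨e1, e2⟩ | ⟨e1, e2⟩ <;> rcases hp with rfl | rfl
      · exact hya (p2.symm.trans e1.symm)
      · exact hyb (p2.symm.trans e2.symm)
      · exact hyb (p2.symm.trans e2.symm)
      · exact hya (p2.symm.trans e1.symm)
    have hk' : ∀ i : ℕ, 1 ≤ i → i ≤ k → (a = X i ∨ a = Y i) → L a ≠ neg (f b) := by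
      intro i i1 i2 hai he
      rcases hai with rfl | rfl
      · have g1 := (hmem i i1 i2).2.1
        apply g1
        show mu i ∈ kap H R k X Y m c f w u (X i) mu
        unfold kap
        rw [if_neg hnw, if_neg hnL]
        simp only [mem_filter, mem_univ, true_and]
        exact ⟨b, hFC, i, i1, i2, Or.inl ⟨rfl, by rw [← LX i i1 i2]; exact he⟩⟩
      · have g1 := (hmem i i1 i2).2.2
        apply g1
        show mu i ∈ kap H R k X Y m c f w u (Y i) mu
        unfold kap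
        rw [if_neg hnw, if_neg hnL]
        simp only [mem_filter, mem_univ, true_and]
        exact ⟨b, hFC, i, i1, i2, Or.inr ⟨rfl, by rw [← LY i i1 i2]; exact he⟩⟩
    obtain ⟨i, i1, i2, hi⟩ := (hin a).2 ha
    rw [Lo b hFC.1]
    exact hk' i i1 i2 hi
  have hKext : CExt m (fun j => L (c j)) := by
    rw [cext_iff (by omega)]
    refine ⟨?_, ?_, fun D => ?_⟩
    · exact hconf (z 1) (zu 1 le_rfl (by omega)) _ _ hcat.ne0 (by rw [ks.e0]; exact inZ_Y X Y _)
        (by rw [ks.e1]; exact inZ_X X Y _) hcat.adj0 (hcat.adjc 1 le_rfl (by omega))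
    · show L (c m) ≠ neg (L (c (m + 1)))
      by_cases ha : InZ X Y (c m)
      · by_cases hb : InZ X Y (c (m + 1))
        · exact hconf (z m) (zu m (by omega) le_rfl) _ _ hcat.nem ha hb
            (hcat.adjc m (by omega) le_rfl) hcat.adjm
        · exact hfar _ _ ⟨hb, Or.inl ⟨rfl, rfl⟩⟩ ha
      · by_cases hb : InZ X Y (c (m + 1))
        · exact H3DA.ne_neg_symm (hfar _ _ ⟨ha, Or.inr ⟨rfl, rfl⟩⟩ hb)
        · rw [Lo _ ha, Lo _ hb]
          have hzn : ¬ InC k (xN X) (xN Y) (z m) := fun h' => zu m (by omega) le_rfl (h.cov h')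
          have e1 := (hf _ _ (hcat.adjc m (by omega) le_rfl) hzn (fun h' => ha ((hin _).1 h'))).2
            (he_of_unc (zu m (by omega) le_rfl) (hcat.adjc m (by omega) le_rfl)).2
          have e2 := (hf _ _ hcat.adjm hzn (fun h' => hb ((hin _).1 h'))).2
            (he_of_unc (zu m (by omega) le_rfl) hcat.adjm).2
          exact H3DA.nr_common e1 e2
    · exact hnt D
  refine chain_contra hG hc h (Or.inl hl) hf (mu := mu) ?_
  refine fit_of_lists h hΦ (fun i i1 i2 => (hmem i i1 i2).1) hw (fun _ => hcyc) ?_ ?_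
  · intro v a b hT ha hor
    have haZ := (hin a).1 ha
    have hbZ : InZ X Y b := by
      rcases hor with hE | hb
      · rcases hE with hE | ⟨-, a', b', hab', ha', hb', hva, hvb⟩
        · obtain ⟨i, i1, i2, hi⟩ := hE
          exact absurd hT (fun hT => isTwo_not_cat hcat i1 i2 (hi ▸ hT))
        · rcases hT.2.2.2.2.2.2 _ hva with g1 | g1 <;> rcases hT.2.2.2.2.2.2 _ hvb with g2 | g2
          · exact absurd (g1.trans g2.symm) hab'
          · exact g2 ▸ hb'
          · exact g1 ▸ ha'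
          · exact absurd (g1.trans g2.symm) hab'
      · exact (hin b).1 hb
    exact hconf v hT.1 a b hT.2.2.2.1 haZ hbZ hT.2.1 hT.2.2.1
  · intro m' z' c' hC hex hor
    by_cases he : cSupp m' z' = cSupp m z
    · rw [cext_iff_fits hC, he, ← cext_iff_fits hcat]
      exact hKext
    · exfalso
      have hst := ks.oth m' z' c' hC he
      rcases hor with h3 | ⟨i, i1, i2, h3⟩
      · apply h3
        obtain ⟨s1, s2⟩ := hst
        refine ⟨fun hm' a b ha hb ha' hb' => s1 hm' a b ha hb ((hin _).1 ha') ((hin _).1 hb'),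
          fun hm' => ?_⟩
        simp only [hin]
        exact s2 hm'
      · rcases h3 with h3 | ⟨-, a, b, hab, ha, hb, hva, hvb⟩
        · exact he (cSupp_eq hC hcat (mem_cSupp i1 i2) h3)
        · exact stat_no2 hC hst cc i1 i2 hab ha hb hva hvb


/-! ### Four units: the closed walk -/

/-- The history with two labels. -/
def h2 (a b : Q) : ℕ → Q := fun i => if i = 1 then a else b

/-- The walk of four labels. -/
def w4 (a b c d : Q) : ℕ → Q := fun i => if i = 1 then a else if i = 2 then b else if i = 3 then c else d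

/-- The run for a kill unit, four units. -/
theorem run4 (sh : ShH) (shx : ShxH) (tn : TwoNH) (hG : ClassC H R) (hc : Crit H R)
    (ks : KS H R 4 X Y m z c) {w : V} {u : ℕ} (kw : KW H R 4 X Y m c w u)
    (hkill : ∀ f, OffC H R 4 (xN X) (xN Y) f → KillU 4 (xN X) (xN Y) m c f u)
    (hX3 : Prt m c (X (-1))) (hX2 : Prt m c (X 2)) (hY2 : ¬ Prt m c (Y (-2)))
    (hno : ¬ L2 H R X Y 0) : False := by
  have cc := ks.cc
  have hm3 := ks.m3
  have h : Chn H R 4 (xN X) (xN Y) := cc.chn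
  have hl : Lk H R (xN Y 4) (xN X 1) := cc.lkc
  obtain ⟨f, hf⟩ := exists_off h hc
  obtain ⟨Φ, hΦ⟩ := exists_forb h hf (ES H R X Y m z) (xN X 1) (xN X 1)
  have hu := hkill f hf
  have hK := kap_Kap hG ks kw hu hΦ.two hΦ.triv
  have hsub : cSupp m z ⊆ ES H R X Y m z := fun v hv => Or.inl hv
  have hport : ∀ v, InZ X Y v → Prt m c v → cst H R Φ v = 0 := fun v hv hp =>
    cst_port hG cc ks.cat hΦ.triv hsub hv hp
  set κ := kap H R 4 X Y m c f w u with hκ
  have hdep := Fl_dep hG h hl hK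
  have c1 : ∀ g, 5 ≤ (Fl H R 4 (xN X) (xN Y) Φ κ 1 g).card := by
    intro g
    have e : cst H R Φ (xN X 1) + (κ (xN X 1) g ∪ κ (xN X 1) g).card ≤ 1 := by
      rw [hK.x1, Finset.union_self]
      have := hK.one (xN X 1) g
      omega
    have := Fl_common (k := 4) le_rfl (by omega) g g e (costy hG h hl hK le_rfl (by omega) g g)
    rw [Finset.inter_self] at this
    omega
  have x2 : ∀ g, cst H R Φ (xN X 2) + (κ (xN X 2) g ∪ κ (xN X 2) g).card ≤ 1 := by
    intro g
    have e : cst H R Φ (xN X 2) = 0 := hport _ (inZ_X X Y _) hX2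
    rw [e, Finset.union_self]
    have := hK.one (xN X 2) g
    omega
  have c2 : ∀ g, 5 ≤ (Fl H R 4 (xN X) (xN Y) Φ κ 2 g).card := by
    intro g
    have := Fl_common (k := 4) (by omega) (by omega) g g (x2 g)
      (costy hG h hl hK (show 1 ≤ 2 by omega) (by omega) g g)
    rw [Finset.inter_self] at this
    omega
  have c3 : ∀ g, 7 ≤ (Fl H R 4 (xN X) (xN Y) Φ κ 3 g).card := by
    intro g
    have e1 : cst H R Φ (xN X 3) + (κ (xN X 3) g ∪ κ (xN X 3) g).card ≤ 1 := by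
      have e : cst H R Φ (xN X 3) = 0 := by
        have e0 : xN X 3 = X (-1) := ks.Xk1
        rw [e0]
        exact hport _ (inZ_X X Y _) hX3
      rw [e, Finset.union_self]
      have := hK.one (xN X 3) g
      omega
    have e2 : cst H R Φ (xN Y 3) + (κ (xN Y 3) g ∪ κ (xN Y 3) g).card ≤ 0 := by
      have a1 : cst H R Φ (xN Y 3) = 0 := hK.yp
      have a2 : κ (xN Y 3) g = ∅ := hK.ypk g
      rw [a1, a2]; simp
    have := Fl_common (k := 4) (by omega) (by omega) g g e1 e2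
    rw [Finset.inter_self] at this
    omega
  have c4 : ∀ g, 4 ≤ (Fl H R 4 (xN X) (xN Y) Φ κ 4 g).card := by
    intro g; exact Fl4' hG h hl hK (by omega) le_rfl g
  -- the lists are static, except the third one
  set g0 : ℕ → Q := h2 (false, false, false) (false, false, false) with hg0
  set A1 := Fl H R 4 (xN X) (xN Y) Φ κ 1 g0 with hA1
  set A2 := Fl H R 4 (xN X) (xN Y) Φ κ 2 g0 with hA2
  set A4 := Fl H R 4 (xN X) (xN Y) Φ κ 4 g0 with hA4
  have d1 : ∀ g, Fl H R 4 (xN X) (xN Y) Φ κ 1 g = A1 := fun g =>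
    hdep 1 g g0 (fun j h1 h2 => by omega)
  have d2 : ∀ g, Fl H R 4 (xN X) (xN Y) Φ κ 2 g = A2 := by
    intro g
    rw [hA2, Fl_in (by omega) (by omega), Fl_in (by omega) (by omega), (hK.st2 g g0).1,
      (hK.st2 g g0).2]
  have d4 : ∀ g, Fl H R 4 (xN X) (xN Y) Φ κ 4 g = A4 := by
    intro g
    rw [hA4, Fl_in (by omega) le_rfl, Fl_in (by omega) le_rfl, hK.lastx, hK.lastx, hK.lasty, hK.lasty]
  have d3 : ∀ a b e d, Fl H R 4 (xN X) (xN Y) Φ κ 3 (w4 a b e d) =
      Fl H R 4 (xN X) (xN Y) Φ κ 3 (h2 a b) := by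
    intro a b e d
    refine hdep 3 _ _ (fun j h1 h2' => ?_)
    have hj : j = 1 ∨ j = 2 := by omega
    rcases hj with rfl | rfl <;> rfl
  have fin : ∀ t1 t2 t3 t4, t1 ∈ A1 → t2 ∈ A2 → t3 ∈ Fl H R 4 (xN X) (xN Y) Φ κ 3 (h2 t1 t2) →
      t4 ∈ A4 → nr t1 t2 = true → nr t2 t3 = true → nr t3 t4 = true → nr t4 t1 = true → t1 ≠ t3 →
      (L2 H R X Y (-2) → t4 ≠ t2) → False := by
    intro t1 t2 t3 t4 m1 m2 m3 m4 n1 n2 n3 n4 n5 n6
    have hmem : ∀ i, 1 ≤ i → i ≤ 4 → w4 t1 t2 t3 t4 i ∈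
        Fl H R 4 (xN X) (xN Y) Φ κ i (w4 t1 t2 t3 t4) := by
      intro i i1 i2
      have hi : i = 1 ∨ i = 2 ∨ i = 3 ∨ i = 4 := by omega
      rcases hi with rfl | rfl | rfl | rfl
      · rw [d1]; exact m1
      · rw [d2]; exact m2
      · rw [d3]; exact m3
      · rw [d4]; exact m4
    refine core_fin tn hG hc ks kw hf hΦ (mu := w4 t1 t2 t3 t4) ?_ ?_ n4 (Ne.symm n5) hno n6
    · intro i i1 i2
      have := hmem i i1 i2
      rw [Fl_in i1 i2] at this
      simp only [mem_sdiff, mem_union, not_or] at this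
      exact ⟨this.1, this.2.1, this.2.2⟩
    · intro i i1 i2
      have hi : i = 1 ∨ i = 2 ∨ i = 3 := by omega
      rcases hi with rfl | rfl | rfl
      · exact n1
      · exact n2
      · exact n3
  by_cases hL : L2 H R X Y (-2)
  · obtain ⟨v, hv⟩ := hL
    rw [show (-2 : ℤ) + 2 = 0 by ring] at hv
    have y2 : ∀ g, cst H R Φ (xN Y 2) + (κ (xN Y 2) g ∪ κ (xN Y 2) g).card ≤ 0 := by
      intro g
      have a1 : cst H R Φ (xN Y 2) = 0 := by
        have e0 : xN Y 2 = Y (-2) := ks.Yk2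
        rw [e0]
        exact cst_pair hG cc hΦ.triv (cc.xy _ _).symm (inZ_Y X Y (-2)) (inZ_X X Y 0) hv.1 hv.2.1
          hv.2.2.1
      have a2 : κ (xN Y 2) g = ∅ := by
        have e0 : xN Y 2 = Y (-2) := ks.Yk2
        rw [e0, hκ]
        unfold kap
        split_ifs with h1 h2
        · exact absurd (h1 ▸ kw.prt) hY2
        · obtain ⟨n, hn⟩ := h2
          exact absurd hn.2.2.1.symm (cc.xy _ _)
        · refine Finset.eq_empty_iff_forall_notMem.2 fun t ht => ?_
          simp only [mem_filter, mem_univ, true_and] at ht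
          obtain ⟨b, ⟨-, hb⟩, -⟩ := ht
          apply hY2
          rcases hb with ⟨e, -⟩ | ⟨e, -⟩
          · exact ⟨m, by omega, e.symm⟩
          · exact ⟨m + 1, le_rfl, e.symm⟩
      rw [a1, a2]; simp
    have c2' : 7 ≤ A2.card := by
      have := Fl_common (k := 4) (by omega) (by omega) g0 g0 (x2 g0) (y2 g0)
      rw [Finset.inter_self] at this
      rw [hA2]
      omega
    have c4' : 6 ≤ A4.card := by
      have e1 : cst H R Φ (xN X 4) + (κ (xN X 4) g0 ∪ κ (xN X 4) g0).card ≤ 0 := by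
        have a1 : cst H R Φ (xN X 4) = 0 := by
          have e0 : xN X 4 = X 0 := ks.Xk
          rw [e0]
          exact cst_pair hG cc hΦ.triv (cc.xy _ _) (inZ_X X Y 0) (inZ_Y X Y (-2)) hv.1 hv.2.2.1
            hv.2.1
        have a2 : κ (xN X 4) g0 = ∅ := hK.lastx g0
        rw [a1, a2]; simp
      have := Fl_common (k := 4) (by omega) le_rfl g0 g0 e1
        (costy hG h hl hK (show 1 ≤ 4 by omega) le_rfl g0 g0)
      rw [Finset.inter_self] at this
      rw [hA4]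
      omega
    obtain ⟨t1, m1, t2, m2, t3, m3, t4, m4, n1, n2, n3, n4, n5, n6⟩ :=
      shx A1 A2 A4 (fun a b => Fl H R 4 (xN X) (xN Y) Φ κ 3 (h2 a b)) (c1 g0) c2' c4'
        (fun a b => c3 _)
    exact fin t1 t2 t3 t4 m1 m2 m3 m4 n1 n2 n3 n4 n5 (fun _ => Ne.symm n6)
  · obtain ⟨t1, m1, t2, m2, t3, m3, t4, m4, n1, n2, n3, n4, n5⟩ :=
      sh A1 A2 A4 (fun a b => Fl H R 4 (xN X) (xN Y) Φ κ 3 (h2 a b)) (c1 g0) (c2 g0) (c4 g0)
        (fun a b => c3 _)
    exact fin t1 t2 t3 t4 m1 m2 m3 m4 n1 n2 n3 n4 n5 (fun h' => absurd h' hL)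

/-- The unit `-1` is full. -/
theorem case1 (sh : ShH) (shx : ShxH) (tn : TwoNH) (hG : ClassC H R) (hc : Crit H R)
    (ks : KS H R 4 X Y m z c) (hX : Prt m c (X (-1))) : False := by
  have cc := ks.cc
  have hm3 := ks.m3
  have hcat := ks.cat
  have hY1 : ¬ Prt m c (Y 1) := fun h => ks.ns ⟨hX, h⟩
  have hX2 : Prt m c (X 2) := by
    by_contra h
    have := (ks.full 1).2 (by rwa [show (1 : ℤ) + 1 = 2 by ring])
    exact hY1 this
  have hY2 : ¬ Prt m c (Y (-2)) := by
    rw [ks.full, show (-2 : ℤ) + 1 = -1 by ring]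
    exact fun h => h hX
  have hno : ¬ L2 H R X Y 0 := by
    rintro ⟨v, hv⟩
    rw [show (0 : ℤ) + 2 = 2 by ring] at hv
    exact port_not_two hG ks (isTwo_symm hv) (inZ_X X Y _) hX2
  have n0 : X (-1) ≠ c 0 := by rw [ks.e0]; exact cc.xy _ _
  have n1 : X (-1) ≠ c 1 := by rw [ks.e1]; exact cc.neX (by omega) (by omega)
  rcases port_cases hX n0 n1 with ⟨p, hp, hpm, hcp⟩ | ⟨a, b, hab, hca⟩
  · -- inner
    refine run4 sh shx tn hG hc ks (w := X (-1)) (u := 3) ⟨by omega, by omega, by omega, hX,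
      Or.inl ks.Xk1.symm, n0, ?_, ?_⟩ (fun f _ => killA hG ks hp hpm hcp) hX hX2 hY2 hno
    · rintro n ⟨n1, n2, n3, v, v1, v2, v3⟩
      rw [← n3] at v3
      have e := cc.unc_unique hG (inZ_X X Y (-1)) v3.symm (by
        have := cat_adj_cl hcat (j := p) (by omega)
        rw [hcp] at this; exact this) v1 (hcat.unc _ (cl_mem hcat.pos (by omega)).1
          (cl_mem hcat.pos (by omega)).2)
      rw [e] at v2
      have e2 : cl m p = p := by unfold cl; rw [if_neg (by omega), if_neg (by omega)]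
      rw [e2] at v2
      obtain ⟨q, q1, q2, q3⟩ := port_exists hcat (by omega) (by omega) (cc.covY _) v2
      have : q = p := by
        unfold cl at q3
        split_ifs at q3 <;> omega
      rw [this, hcp] at q2
      exact cc.xy _ _ q2
    · rintro d ⟨-, h⟩
      have hin : InZ X Y (c p) := by rw [hcp]; exact inZ_X X Y _
      rcases h with ⟨e, -⟩ | ⟨e, -⟩
      · have := cc.port_inj hG ks.cat (i := p) (j := m) (by omega) (by omega) hin (hcp.trans e)
        omega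
      · have := cc.port_inj hG ks.cat (i := p) (j := m + 1) (by omega) (by omega) hin (hcp.trans e)
        omega
  · -- far leaf
    by_cases hb : InZ X Y (c b)
    · exfalso
      have hadj : H.Adj (z m) (c a) ∧ H.Adj (z m) (c b) ∧ c a ≠ c b := by
        rcases hab with ⟨rfl, rfl⟩ | ⟨rfl, rfl⟩
        · exact ⟨hcat.adjc _ (by omega) le_rfl, hcat.adjm, hcat.nem⟩
        · exact ⟨hcat.adjm, hcat.adjc _ (by omega) le_rfl, hcat.nem.symm⟩
      have haZ : InZ X Y (c a) := by rw [hca]; exact inZ_X X Y _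
      have hcb : c b = Y 1 := by
        obtain ⟨i, ⟨e1, e2⟩ | ⟨e1, e2⟩⟩ := tn V H R 4 X Y hG cc (z m) (c a) (c b)
          (hcat.unc m (by omega) le_rfl) hadj.2.2 hadj.1 hadj.2.1 haZ hb
        · exact absurd (hca.symm.trans e1) (cc.xy _ _)
        · rw [e1]
          have := cc.injX _ _ (hca.symm.trans e2)
          refine (cc.eqX (i := i) (j := 1) ?_).2
          obtain ⟨d, hd⟩ := this
          exact ⟨-d - 1, by push_cast at hd ⊢; linarith⟩
      exact hY1 ⟨b, by omega, hcb⟩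
    · refine run4 sh shx tn hG hc ks (w := X 1) (u := 1) ⟨by omega, by omega, by omega,
        ks.p1, Or.inl rfl, ?_, ?_, ?_⟩ (fun f _ => killC hG ks hab hca hb) hX hX2 hY2 hno
      · rw [ks.e0]; exact cc.xy _ _
      · rintro n ⟨n1, n2, n3, -⟩
        exact absurd n3 (cc.neX (i := 1) (j := n) (by omega) (by omega))
      · rintro d ⟨-, h⟩
        have hin : InZ X Y (c 1) := by rw [ks.e1]; exact inZ_X X Y _
        rcases h with ⟨e, -⟩ | ⟨e, -⟩
        · have := cc.port_inj hG ks.cat (i := 1) (j := m) (by omega) (by omega) hin (ks.e1.trans e)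
          omega
        · have := cc.port_inj hG ks.cat (i := 1) (j := m + 1) (by omega) (by omega) hin
            (ks.e1.trans e)
          omega

/-- The port next to the first fork is outside the chain. -/
lemma c2_out (hG : ClassC H R) (hc : Crit H R) (ks : KS H R 4 X Y m z c) : ¬ InZ X Y (c 2) := by
  intro hin
  have cc := ks.cc
  have hm3 := ks.m3
  obtain ⟨f, D, hK⟩ := exists_ktight hG hc ks.cat (by omega)
  obtain ⟨fM, fL, -, -⟩ := fits_other ks.cat hK.ok
  have hn := CLB.H95.Tight.near (by omega) hK.tight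
  obtain ⟨hn0, hn1⟩ := hn
  simp only [ks.e0, ks.e1] at hn0 hn1
  -- the unit of `c 2`
  obtain ⟨i, hi⟩ := hin
  have hpar : i % 2 = 0 := by
    have := cc.parity ks.cat (j := 2) (j' := 0) (i := i) (i' := -1) (by omega) (by omega) hi
      (Or.inr ks.e0)
    have e1 : pos m 2 = 2 := by
      unfold CLB.H3.pos
      rw [if_neg (by omega), if_neg (by omega)]
    have e2 : pos m 0 = 1 := by unfold CLB.H3.pos; simp
    rw [e1, e2] at this
    push_cast at this
    omega
  obtain ⟨n, n1, n2, n3⟩ := cc.repr i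
  have hi' : c 2 = X n ∨ c 2 = Y n := by
    rw [← (cc.eqX n3).1, ← (cc.eqX n3).2]; exact hi
  have hnc : n = 2 ∨ n = 4 := by
    obtain ⟨d, hd⟩ := n3
    push_cast at hd
    omega
  rcases hnc with rfl | rfl
  · have l1 := fL _ _ (cc.lk 1)
    have l2 := fL _ _ (cc.lk (-2))
    have e1 : X ((1 : ℤ) + 1) = X 2 := by norm_num
    have e2 : X ((-2 : ℤ) + 1) = X (-1) := by norm_num
    have e3 : Y (-2) = Y 2 := (cc.eqX (i := -2) (j := 2) ⟨-1, by norm_num⟩).2
    rw [e1] at l1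
    rw [e2, e3] at l2
    have m1 := fM _ _ (cc.me 1)
    have m2 := fM _ _ (cc.me 2)
    have m3 := fM _ _ (cc.me (-1))
    rcases hi' with e | e
    · have e4 : c 2 = X 2 := e
      rw [e4] at hn0
      rw [m3, H3DA.neg_neg] at hn0
      rw [m2, nr_neg] at l2
      have := nr_symm hn0
      rw [this] at l2
      exact absurd l2 (by decide)
    · have e4 : c 2 = Y 2 := e
      rw [e4] at hn1
      rw [← m1, m2, nr_neg', l1] at hn1
      exact absurd hn1 (by decide)
  · rcases hi' with e | e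
    · exact ks.nX0 ⟨2, by omega, e.trans ks.Xk⟩
    · exact ks.nY0 ⟨2, by omega, e.trans ks.Yk⟩

/-- At most one forbidden label at a far leaf. -/
lemma FC_card (cc : CC H R k X Y) (hcat : Cat H R m z c) {f : V → Q} {w : V} {u : ℕ}
    (hwZ : ¬ InZ X Y w) {v : V} (hv : InZ X Y v) (hLC : ¬ ∃ n, LC H R k X Y v n) {g : ℕ → Q} :
    (kap H R k X Y m c f w u v g).card ≤ 1 := by
  have hvw : v ≠ w := fun e => hwZ (e ▸ hv)
  unfold kap
  rw [if_neg hvw, if_neg hLC]
  refine Finset.card_le_one.2 fun a ha b hb => ?_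
  simp only [mem_filter, mem_univ, true_and] at ha hb
  obtain ⟨d, hd, i, i1, i2, hi⟩ := ha
  obtain ⟨d', hd', j, j1, j2, hj⟩ := hb
  have hdd : d = d' := by
    rcases hd.2 with ⟨e1, e2⟩ | ⟨e1, e2⟩ <;> rcases hd'.2 with ⟨e3, e4⟩ | ⟨e3, e4⟩
    · rw [e2, e4]
    · exact absurd (e1.symm.trans e3) hcat.nem
    · exact absurd (e3.symm.trans e1) hcat.nem
    · rw [e2, e4]
  have hij : i = j := by
    by_contra hne
    rcases hi with ⟨e1, -⟩ | ⟨e1, -⟩ <;> rcases hj with ⟨e2, -⟩ | ⟨e2, -⟩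
    · rcases Nat.lt_or_gt_of_ne hne with hlt | hlt
      · exact cc.neX (i := i) (j := j) (by omega) (by omega) (e1.symm.trans e2)
      · exact cc.neX (i := j) (j := i) (by omega) (by omega) (e2.symm.trans e1)
    · exact cc.xy _ _ (e1.symm.trans e2)
    · exact cc.xy _ _ (e2.symm.trans e1)
    · rcases Nat.lt_or_gt_of_ne hne with hlt | hlt
      · exact cc.neY (i := i) (j := j) (by omega) (by omega) (e1.symm.trans e2)
      · exact cc.neY (i := j) (j := i) (by omega) (by omega) (e2.symm.trans e1)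
  subst hdd hij
  rcases hi with ⟨e1, e3⟩ | ⟨e1, e3⟩ <;> rcases hj with ⟨e2, e4⟩ | ⟨e2, e4⟩
  · exact sg_inj (e3.trans e4.symm)
  · exact absurd (e1.symm.trans e2) (cc.xy _ _)
  · exact absurd (e2.symm.trans e1) (cc.xy _ _)
  · exact sg_inj (neg_inj' (e3.trans e4.symm))

/-- Both units half seen. -/
theorem case3 (shq : ShqH) (tn : TwoNH) (hG : ClassC H R) (hc : Crit H R)
    (ks : KS H R 4 X Y m z c) (hX : ¬ Prt m c (X (-1))) (hY : ¬ Prt m c (Y 1)) : False := by
  have cc := ks.cc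
  have hm3 := ks.m3
  have hcat := ks.cat
  have hX2 : Prt m c (X 2) := by
    by_contra h
    have := (ks.full 1).2 (by rwa [show (1 : ℤ) + 1 = 2 by ring])
    exact hY this
  have hY2 : Prt m c (Y (-2)) := by
    rw [ks.full, show (-2 : ℤ) + 1 = -1 by ring]; exact hX
  have hY2' : Prt m c (Y 2) := by
    rw [← (cc.eqX (i := -2) (j := 2) ⟨-1, by norm_num⟩).2]; exact hY2
  have hno : ¬ L2 H R X Y 0 := by
    rintro ⟨v, hv⟩
    rw [show (0 : ℤ) + 2 = 2 by ring] at hv
    exact port_not_two hG ks (isTwo_symm hv) (inZ_X X Y _) hX2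
  have hno2 : ¬ L2 H R X Y (-2) := by
    rintro ⟨v, hv⟩
    exact port_not_two hG ks hv (inZ_Y X Y _) hY2
  have h : Chn H R 4 (xN X) (xN Y) := cc.chn
  have hl : Lk H R (xN Y 4) (xN X 1) := cc.lkc
  obtain ⟨f, hf⟩ := exists_off h hc
  obtain ⟨Φ, hΦ⟩ := exists_forb h hf (ES H R X Y m z) (xN X 1) (xN X 1)
  have hsub : cSupp m z ⊆ ES H R X Y m z := fun v hv => Or.inl hv
  have hport : ∀ v, InZ X Y v → Prt m c v → cst H R Φ v = 0 := fun v hv hp =>
    cst_port hG cc ks.cat hΦ.triv hsub hv hp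
  have hwZ : ¬ InZ X Y (z 1) := fun h' => hcat.unc 1 le_rfl (by omega) (cc.cov h')
  have hx : ∀ i, 1 ≤ i → i ≤ 4 → cst H R Φ (xN X i) ≤ 2 := fun i i1 i2 =>
    cst_le hΦ.two (h.prt_x hG hl i1 i2)
  have hy : ∀ i, 1 ≤ i → i ≤ 4 → cst H R Φ (xN Y i) ≤ 2 := fun i i1 i2 =>
    cst_le hΦ.two (h.prt_y hG hl i1 i2)
  set κ := kap H R 4 X Y m c f (z 1) 1 with hκ
  -- no further label at a vertex of the chain which is not a port and not a conflict
  have kem : ∀ v, InZ X Y v → (∀ n, ¬ LC H R 4 X Y v n) → (∀ b, ¬ FC X Y m c v b) → ∀ g, κ v g = ∅ := by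
    intro v hv hL hF g
    rw [hκ]
    unfold kap
    split_ifs with h1 h2
    · exact absurd (h1 ▸ hv) hwZ
    · obtain ⟨n, hn⟩ := h2
      exact absurd hn (hL n)
    · refine Finset.eq_empty_iff_forall_notMem.2 fun t ht => ?_
      simp only [mem_filter, mem_univ, true_and] at ht
      obtain ⟨b, hb, -⟩ := ht
      exact hF b hb
  have klc : ∀ (i : ℕ) (g : ℕ → Q) (t : Q), i = 3 → t ≠ g 1 → (∀ b, ¬ FC X Y m c (X i) b) →
      t ∉ κ (X i) g := by
    intro i g t hi ht hF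
    rw [hκ]
    unfold kap
    split_ifs with h1 h2
    · exact absurd (h1 ▸ inZ_X X Y i) hwZ
    · simp only [mem_filter, mem_univ, true_and]
      rintro ⟨n, ⟨a1, a2, a3, -⟩, e⟩
      have hn : n = 3 := by omega
      subst hn
      exact ht e
    · simp only [mem_filter, mem_univ, true_and]
      rintro ⟨b, hb, -⟩
      exact hF b hb
  have fcp : ∀ v b, FC X Y m c v b → Prt m c v := by
    rintro v b ⟨-, ⟨e, -⟩ | ⟨e, -⟩⟩
    · exact ⟨m, by omega, e.symm⟩
    · exact ⟨m + 1, le_rfl, e.symm⟩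
  have fc0 : ∀ b, ¬ FC X Y m c (c 0) b := by
    rintro b ⟨-, ⟨e, -⟩ | ⟨e, -⟩⟩
    · have := cc.port_inj hG hcat (i := 0) (j := m) (by omega) (by omega)
        (by rw [ks.e0]; exact inZ_Y X Y _) e
      omega
    · have := cc.port_inj hG hcat (i := 0) (j := m + 1) (by omega) (by omega)
        (by rw [ks.e0]; exact inZ_Y X Y _) e
      omega
  have fc1 : ∀ b, ¬ FC X Y m c (c 1) b := by
    rintro b ⟨-, ⟨e, -⟩ | ⟨e, -⟩⟩
    · have := cc.port_inj hG hcat (i := 1) (j := m) (by omega) (by omega)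
        (by rw [ks.e1]; exact inZ_X X Y _) e
      omega
    · have := cc.port_inj hG hcat (i := 1) (j := m + 1) (by omega) (by omega)
        (by rw [ks.e1]; exact inZ_X X Y _) e
      omega
  have hX3 : ∀ b, ¬ FC X Y m c (X (3 : ℕ)) b := by
    intro b hb
    have := fcp _ _ hb
    have e0 : X ((3 : ℕ) : ℤ) = X (-1) := ks.Xk1
    rw [e0] at this
    exact hX this
  have lcY : ∀ i n, ¬ LC H R 4 X Y (Y i) n := by
    rintro i n ⟨-, -, e, -⟩
    exact cc.xy _ _ e.symm
  have lcX : ∀ (i : ℕ) n, 1 ≤ i → i ≤ 4 → i ≠ 3 → ¬ LC H R 4 X Y (X i) n := by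
    rintro i n i1 i2 i3 ⟨a1, a2, a3, -⟩
    have hn : n = 3 := by omega
    subst hn
    rcases Nat.lt_or_gt_of_ne i3 with hlt | hlt
    · exact cc.neX (i := i) (j := (3 : ℕ)) (by omega) (by omega) a3
    · exact cc.neX (i := (3 : ℕ)) (j := i) (by omega) (by omega) a3.symm
  set g0 : ℕ → Q := h2 (false, false, false) (false, false, false) with hg0
  -- unit 1
  have k1 : ∀ g, κ (X (1 : ℕ)) g = ∅ ∧ κ (Y (1 : ℕ)) g = ∅ := by
    intro g
    constructor
    · refine kem _ (inZ_X X Y _) (fun n => lcX 1 n le_rfl (by omega) (by omega)) ?_ g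
      have e0 : X ((1 : ℕ) : ℤ) = c 1 := ks.e1.symm
      rw [e0]; exact fc1
    · exact kem _ (inZ_Y X Y _) (fun n => lcY _ n) (fun b hb => hY (fcp _ _ hb)) g
  have k4 : ∀ g, κ (X (4 : ℕ)) g = ∅ ∧ κ (Y (4 : ℕ)) g = ∅ := by
    intro g
    constructor
    · refine kem _ (inZ_X X Y _) (fun n => lcX 4 n (by omega) (by omega) (by omega)) ?_ g
      intro b hb
      have := fcp _ _ hb
      have e0 : X ((4 : ℕ) : ℤ) = X 0 := ks.Xk
      rw [e0] at this
      exact ks.nX0 this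
    · refine kem _ (inZ_Y X Y _) (fun n => lcY _ n) ?_ g
      intro b hb
      have := fcp _ _ hb
      have e0 : Y ((4 : ℕ) : ℤ) = Y 0 := ks.Yk
      rw [e0] at this
      exact ks.nY0 this
  have k3 : ∀ g, κ (Y (3 : ℕ)) g = ∅ := by
    intro g
    refine kem _ (inZ_Y X Y _) (fun n => lcY _ n) ?_ g
    have e0 : Y ((3 : ℕ) : ℤ) = c 0 := by rw [ks.e0]; exact ks.Yk1
    rw [e0]; exact fc0
  -- unit 2
  have k2s : ∀ g g', κ (X (2 : ℕ)) g = κ (X (2 : ℕ)) g' ∧ κ (Y (2 : ℕ)) g = κ (Y (2 : ℕ)) g' := by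
    intro g g'
    have hX' : X ((2 : ℕ) : ℤ) ≠ z 1 := fun e => hwZ (e ▸ inZ_X X Y _)
    have hY' : Y ((2 : ℕ) : ℤ) ≠ z 1 := fun e => hwZ (e ▸ inZ_Y X Y _)
    have a1 : ¬ ∃ n, LC H R 4 X Y (X (2 : ℕ)) n := fun ⟨n, hn⟩ =>
      lcX 2 n (by omega) (by omega) (by omega) hn
    have a2 : ¬ ∃ n, LC H R 4 X Y (Y (2 : ℕ)) n := fun ⟨n, hn⟩ => lcY _ n hn
    constructor
    · rw [hκ]; unfold kap; rw [if_neg hX', if_neg a1, if_neg hX', if_neg a1]
    · rw [hκ]; unfold kap; rw [if_neg hY', if_neg a2, if_neg hY', if_neg a2]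
  have k2c : (κ (X (2 : ℕ)) g0 ∪ κ (Y (2 : ℕ)) g0).card ≤ 1 := by
    have o : ∀ v, InZ X Y v → (κ v g0).card ≤ 1 := by
      intro v hv
      by_cases hLC : ∃ n, LC H R 4 X Y v n
      · have hvw : v ≠ z 1 := fun e => hwZ (e ▸ hv)
        rw [hκ]; unfold kap
        rw [if_neg hvw, if_pos hLC]
        refine Finset.card_le_one.2 fun a ha b hb => ?_
        simp only [mem_filter, mem_univ, true_and] at ha hb
        obtain ⟨n, h3, rfl⟩ := ha
        obtain ⟨n', h4, rfl⟩ := hb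
        rw [LC_unique cc h3 h4]
      · exact FC_card cc hcat hwZ hv hLC
    by_cases hf1 : ∃ b, FC X Y m c (X (2 : ℕ)) b
    · have e : κ (Y (2 : ℕ)) g0 = ∅ := by
        refine kem _ (inZ_Y X Y _) (fun n => lcY _ n) ?_ g0
        rintro b' ⟨hb', hb''⟩
        obtain ⟨b, hb, hbb⟩ := hf1
        rcases hbb with ⟨e1, e2⟩ | ⟨e1, e2⟩ <;> rcases hb'' with ⟨e3, e4⟩ | ⟨e3, e4⟩
        · exact cc.xy _ _ (e1.trans e3.symm)
        · exact hb (by rw [e2, ← e3]; exact inZ_Y X Y _)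
        · exact hb (by rw [e2, ← e3]; exact inZ_Y X Y _)
        · exact cc.xy _ _ (e1.trans e3.symm)
      rw [e, Finset.union_empty]
      exact o _ (inZ_X X Y _)
    · have e : κ (X (2 : ℕ)) g0 = ∅ :=
        kem _ (inZ_X X Y _) (fun n => lcX 2 n (by omega) (by omega) (by omega))
          (fun b hb => hf1 ⟨b, hb⟩) g0
      rw [e, Finset.empty_union]
      exact o _ (inZ_Y X Y _)
  -- the lists
  have lc := fun i => lst_card (G := H) (R := R) (x := xN X) (y := xN Y) Φ i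
  set A1 := lst H R (xN X) (xN Y) Φ 1 with hA1
  set A2 := lst H R (xN X) (xN Y) Φ 2 \ (κ (X (2 : ℕ)) g0 ∪ κ (Y (2 : ℕ)) g0) with hA2
  set A3 := lst H R (xN X) (xN Y) Φ 3 with hA3
  set A4 := lst H R (xN X) (xN Y) Φ 4 with hA4
  have c1 : 6 ≤ A1.card := by
    have e1 := lc 1
    have e2 : cst H R Φ (xN X 1) = 0 := hport _ (inZ_X X Y _) ks.p1
    have e3 := hy 1 le_rfl (by omega)
    rw [hA1]; omega
  have c2 : 7 ≤ A2.card := by
    have e1 := lc 2
    have e2 : cst H R Φ (xN X 2) = 0 := hport _ (inZ_X X Y _) hX2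
    have e3 : cst H R Φ (xN Y 2) = 0 := hport _ (inZ_Y X Y _) hY2'
    have e4 := Finset.le_card_sdiff (κ (X (2 : ℕ)) g0 ∪ κ (Y (2 : ℕ)) g0)
      (lst H R (xN X) (xN Y) Φ 2)
    rw [hA2]; omega
  have c3 : 6 ≤ A3.card := by
    have e1 := lc 3
    have e2 : cst H R Φ (xN Y 3) = 0 := by
      refine hport _ (inZ_Y X Y _) ?_
      have e0 : xN Y 3 = Y (-1) := ks.Yk1
      rw [e0]; exact ks.p0
    have e3 := hx 3 (by omega) (by omega)
    rw [hA3]; omega
  have c4 : 4 ≤ A4.card := by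
    have e1 := lc 4
    have e2 := hx 4 (by omega) le_rfl
    have e3 := hy 4 (by omega) le_rfl
    rw [hA4]; omega
  obtain ⟨t1, m1, t2, m2, t3, m3, t4, m4, n1, n2, n3, n4, n5, n6⟩ :=
    shq A1 A2 A3 A4 (neg (f (c 2))) c1 c2 c3 c4
  refine core_fin' tn hG hc ks hwZ (u := 1) hf hΦ (mu := w4 t1 t2 t3 t4) ?_ ?_ n4 (Ne.symm n5) hno
    (fun h' => absurd h' hno2) ?_
  · intro i i1 i2
    have hi : i = 1 ∨ i = 2 ∨ i = 3 ∨ i = 4 := by omega
    rcases hi with rfl | rfl | rfl | rfl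
    · refine ⟨m1, ?_, ?_⟩
      · show _ ∉ κ (X (1 : ℕ)) _
        rw [(k1 _).1]; simp
      · show _ ∉ κ (Y (1 : ℕ)) _
        rw [(k1 _).2]; simp
    · rw [hA2, mem_sdiff, mem_union, not_or] at m2
      refine ⟨m2.1, ?_, ?_⟩
      · show t2 ∉ κ (X (2 : ℕ)) _
        rw [(k2s _ g0).1]; exact m2.2.1
      · show t2 ∉ κ (Y (2 : ℕ)) _
        rw [(k2s _ g0).2]; exact m2.2.2
    · refine ⟨m3, ?_, ?_⟩
      · show t3 ∉ κ (X (3 : ℕ)) _
        exact klc 3 _ _ rfl (Ne.symm n5) hX3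
      · show t3 ∉ κ (Y (3 : ℕ)) _
        rw [k3]; simp
    · refine ⟨m4, ?_, ?_⟩
      · show _ ∉ κ (X (4 : ℕ)) _
        rw [(k4 _).1]; simp
      · show _ ∉ κ (Y (4 : ℕ)) _
        rw [(k4 _).2]; simp
  · intro i i1 i2
    have hi : i = 1 ∨ i = 2 ∨ i = 3 := by omega
    rcases hi with rfl | rfl | rfl
    · exact n1
    · exact n2
    · exact n3
  · intro D hD
    have hn := (CLB.H95.Tight.near (by omega) hD).1
    have hout : ¬ InC 4 (xN X) (xN Y) (c 2) := fun h' => c2_out hG hc ks (cc.inC_iff.1 h')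
    have e0 : c 0 = xN Y 3 := by rw [ks.e0]; exact ks.Yk1.symm
    simp only [e0] at hn
    rw [lbl_out hout, lbl_y h (by omega) (by omega), sg_odd (show 3 % 2 = 1 by rfl),
      H3DA.neg_neg] at hn
    have e3 : w4 t1 t2 t3 t4 3 = t3 := rfl
    rw [e3, nr_neg] at hn
    rw [nr_neg] at n6
    have e4 : nr (f (c 2)) t3 = nr t3 (f (c 2)) := by
      have : ∀ a b : Q, nr a b = nr b a := by decide
      exact this _ _
    rw [e4] at n6
    rw [n6] at hn
    exact absurd hn (by decide)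

/-- **Module A4.** -/
theorem oneK4 (sh : ShH) (shx : ShxH) (shq : ShqH) (tn : TwoNH) : OneK4H := by
  intro V _ H R X Y hG hc m z c ks
  have hm3 := ks.m3
  by_cases hX : Prt m c (X (-1))
  · exact case1 sh shx tn hG hc ks hX
  by_cases hY : Prt m c (Y 1)
  · refine case1 sh shx tn hG hc ks.mir ?_
    show Prt m (fun j => c (swL j)) (Y (- -1))
    rw [prt_sw (by omega), _root_.neg_neg]; exact hY
  · exact case3 shq tn hG hc ks hX hY

end K4

end CLB.H86
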